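import Mathlib
import Pool.Agent.N600.DT.Norm

/-!
# Direct sums and the decomposition `GL_n(ℝ) = D_n(ℝ) O_n(ℝ) UT_n(ℝ) GL_n(ℤ)`

Call a matrix `M ∈ GL_n(ℝ)` decomposable (`Dotu M`) if `M = d o u z` with `d` invertible diagonal,
`o` orthogonal, `u` upper unitriangular, `z ∈ GL_n(ℤ)`; `n` has the decomposition property if every
`M ∈ GL_n(ℝ)` is decomposable.

1. `diag(A, B)` is decomposable if and only if `A` and `B` are; if `A` and `B` are decomposable then
   so is every block triangular matrix with the diagonal blocks `A` and `B`.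
2. If `n` has the decomposition property then so has every `m ≤ n`: the numbers with the
   decomposition property form an initial segment.
3. `n` has the decomposition property if and only if all irreducible `M ∈ GL_m(ℝ)`, `m ≤ n`, are
   decomposable.
4. If for some `k ≥ 1` some lattice `M ℤ^k` has `|x_1 ⋯ x_k| ≥ c > 0` for all its nonzero vectors
   and `det(M)² < c² k^k`, then no `n ≥ k` has the decomposition property.
5. In particular a totally real number field of degree `k` and discriminant less than `k^k` excludes
   all `n ≥ k`.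

The key fact: let `L` be a lattice with a basis whose Gram-Schmidt vectors are unit vectors (a unit
flag).  All nonzero vectors of `L` have length at least one; so if `L` is an orthogonal sum of `L₁`
and `L₂`, then the first vector of the flag lies in `L₁` or in `L₂`, and by induction both `L₁` and
`L₂` have unit flags.
-/

set_option autoImplicit false

open Matrix
open Pool.Agent.N600.DT

theorem Pool.Agent.Results.MP_2877d0_al.DirectSums.result :
    -- direct sums and block triangular matrices
    (∀ (n m : ℕ) (A : Matrix (Fin n) (Fin n) ℝ) (B : Matrix (Fin m) (Fin m) ℝ),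
      A.det ≠ 0 → B.det ≠ 0 →
      (Dotu (blk A 0 B) ↔ Dotu A ∧ Dotu B) ∧
      (∀ C : Matrix (Fin n) (Fin m) ℝ, Dotu A → Dotu B → Dotu (blk A C B))) ∧
    -- initial segment
    (∀ m n : ℕ, m ≤ n → DecompositionProperty n → DecompositionProperty m) ∧
    -- reduction to irreducible lattices
    (∀ n : ℕ, DecompositionProperty n ↔
      ∀ m ≤ n, ∀ M : Matrix (Fin m) (Fin m) ℝ, M.det ≠ 0 → ¬ Reducible M → Dotu M) ∧
    -- the norm criterion
    (∀ (k : ℕ) (M : Matrix (Fin k) (Fin k) ℝ) (c : ℝ), 0 < k → 0 < c → M.det ≠ 0 →
      (∀ x : Fin k → ℤ, x ≠ 0 → c ≤ |∏ i, (M *ᵥ (fun j => (x j : ℝ))) i|) →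
      M.det ^ 2 < c ^ 2 * (k : ℝ) ^ k → ∀ n, k ≤ n → ¬ DecompositionProperty n) ∧
    -- totally real number fields
    (∀ (K : Type) [Field K] [NumberField K] [NumberField.IsTotallyReal K],
      |NumberField.discr K| < (Module.finrank ℚ K : ℤ) ^ (Module.finrank ℚ K) →
      ∀ n, Module.finrank ℚ K ≤ n → ¬ DecompositionProperty n) := by
  refine ⟨?_, ?_, ?_, ?_, ?_⟩
  · intro n m A B hA hB
    exact ⟨⟨fun h => dotu_sum hA hB h, fun h => dotu_tri 0 h.1 h.2⟩,
      fun C h1 h2 => dotu_tri C h1 h2⟩
  · intro m n hmn h
    exact initial hmn h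
  · exact decomposition_iff
  · intro k M c hk hc hM hN hd n hn
    exact not_decomposition_of_norm hk M c hc hM hN hd n hn
  · intro K _ _ _ hd n hn
    exact not_decomposition_of_field K hd n hn
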